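import Mathlib
import Pool.Agent.Run7.h756.CC.Lin

/-!
# Chains of the second kind at several scales and in several residue classes: circles of times

The numbers `b ^ j n + 1`, `j = 0, 1, 2, …`, form for `b = 2` a sequence in which every term is twice the
preceding one minus `1`: Cunningham chains of the second kind are runs of primes in such sequences. Let `R`
bases `b_i ≥ 2`, moduli `q_i` and classes `r_i` be given and let `V` be a finite set of times `j` for which
`b_i ^ j r_i + 1` is coprime to `q_i` for all `i`. For any sufficiently large `N_1, …, N_R` (which may be of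
very different sizes) all members of `V`, with at most `C` exceptions, can be arranged in `m R` disjoint circles
(`m 1 = 3`, `m 2 = 10`, `m 3 = 36`) such that for any `k` successive members `j_1, …, j_k` of a circle and each `i`
the numbers `b_i ^ {j_s} n + 1`, `s ≤ k`, are all prime for at least `N_i / (log N_i) ^ B` of the `n` in
`[N_i, D N_i]` with `n ≡ r_i` modulo `q_i`. Here `C` and `B` depend on `R` and `k` only.
-/

set_option autoImplicit false

namespace Pool.Agent.Results.MP_9f2731_nt.CirclesAtScales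

open Filter Finset
open Pool.Agent.Run7.h756.CC

/-- the number of the `n` in `[N, D N]` with `n ≡ r` modulo `q` such that `b ^ j n + 1` is prime for all `j` in
`F` -/
def count (b q r : ℕ) (F : Finset ℕ) (D N : ℕ) : ℕ :=
  ((Icc N (D * N)).filter (fun n : ℕ => n ≡ r [MOD q] ∧ ∀ j ∈ F, (b ^ j * n + 1).Prime)).card

/-- `m 0 = 1` and `m (R + 1) = ⌊18 * m R / 5⌋`: the numbers `1, 3, 10, 36, 129, ...` -/
def m : ℕ → ℕ
  | 0 => 1
  | R + 1 => 18 * m R / 5

theorem m_eq (R : ℕ) : m R = Pool.Agent.R493.SI.mR R := by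
  induction R with
  | zero => rfl
  | succ R ih =>
    show 18 * m R / 5 = 18 * Pool.Agent.R493.SI.mR R / 5
    rw [ih]

/-- All members of `V` with at most `C` exceptions are arranged in `D` disjoint circles (lists without
repetitions, read cyclically) such that any `k` successive members of a circle (all members, if there are fewer
than `k`) form a set with the property `G`. -/
def Circles (V : Finset ℕ) (D C k : ℕ) (G : Finset ℕ → Prop) : Prop :=
  ∃ e : Fin D → List ℕ, (∀ i, (e i).Nodup) ∧ (∀ i j, i ≠ j → List.Disjoint (e i) (e j)) ∧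
    (∀ i, ∀ v ∈ e i, v ∈ V) ∧ (V.filter (fun v => ∀ i, v ∉ e i)).card ≤ C ∧
    ∀ i j, e i ≠ [] → G ((((e i).rotate j).take k).toFinset)

/-- the form of the time `j` in the variable `(n - r) / q` -/
def fm (b q r j : ℕ) : ℤ × ℤ := ((b : ℤ) ^ j * q, (b : ℤ) ^ j * r + 1)

theorem fm_inj {b q r : ℕ} (hb : 2 ≤ b) (hq : 1 ≤ q) : Function.Injective (fm b q r) := by
  intro s t hst
  simp only [fm, Prod.mk.injEq] at hst
  have h1 : (b : ℤ) ^ s = (b : ℤ) ^ t := by
    have hq' : (q : ℤ) ≠ 0 := by positivity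
    exact mul_right_cancel₀ hq' hst.1
  have h2 : b ^ s = b ^ t := by exact_mod_cast h1
  exact Nat.pow_right_injective hb h2

theorem fm_coprime {b q r j : ℕ} (h : Nat.Coprime (b ^ j * r + 1) q) :
    IsCoprime (fm b q r j).1 (fm b q r j).2 := by
  show IsCoprime ((b : ℤ) ^ j * q) ((b : ℤ) ^ j * r + 1)
  refine IsCoprime.mul_left ?_ ?_
  · exact ⟨-(r : ℤ), 1, by ring⟩
  · have h1 := (Nat.isCoprime_iff_coprime.2 h).symm
    push_cast at h1
    exact h1

theorem cntI_le {b q r D D' N : ℕ} (hq : 1 ≤ q) (hN : 1 ≤ N) (hD : r + q * D ≤ D') (F : Finset ℕ) :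
    cntI (F.image (fm b q r)) D N ≤ count b q r F D' N := by
  unfold cntI count
  rw [← card_image_of_injective (f := fun n : ℕ => r + q * n) _ (by
    intro m m' hm
    simp only at hm
    have h1 : q * m = q * m' := by omega
    exact Nat.eq_of_mul_eq_mul_left (by omega) h1)]
  apply card_le_card
  intro x hx
  obtain ⟨n, hn, rfl⟩ := mem_image.1 hx
  obtain ⟨h1, h2⟩ := mem_filter.1 hn
  rw [mem_Icc] at h1
  refine mem_filter.2 ⟨mem_Icc.2 ⟨?_, ?_⟩, ?_, fun j hj => ?_⟩
  · have h3 : 1 * n ≤ q * n := Nat.mul_le_mul_right _ hq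
    omega
  · have h3 : q * n ≤ q * (D * N) := Nat.mul_le_mul_left _ h1.2
    have h4 : r * 1 ≤ r * N := Nat.mul_le_mul_left _ hN
    have h5 : (r + q * D) * N ≤ D' * N := Nat.mul_le_mul_right _ hD
    have h6 : (r + q * D) * N = r * N + q * (D * N) := by ring
    omega
  · show (r + q * n) % q = r % q
    rw [Nat.add_mul_mod_self_left]
  · have h3 := h2 _ (mem_image_of_mem _ hj)
    have e : (fm b q r j).1 * (n : ℤ) + (fm b q r j).2 = ((b ^ j * (r + q * n) + 1 : ℕ) : ℤ) := by
      simp only [fm]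
      push_cast
      ring
    rw [e] at h3
    exact h3

/-- **Circles of times at several scales.** -/
theorem result (R k : ℕ) (hk : 1 ≤ k) : ∃ C B : ℕ, ∀ b q r : Fin R → ℕ, (∀ i, 2 ≤ b i ∧ 1 ≤ q i) →
    ∀ V : Finset ℕ, (∀ i, ∀ j ∈ V, Nat.Coprime (b i ^ j * r i + 1) (q i)) →
    ∃ D N₀ : ℕ, ∀ N : Fin R → ℕ, (∀ i, N₀ ≤ N i) → Circles V (m R) C k
      (fun w => ∀ i, (N i : ℝ) / (Real.log (N i)) ^ B ≤ (count (b i) (q i) (r i) w D (N i) : ℝ)) := by
  classical
  obtain ⟨C, B, h⟩ := lin_circles R k hk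
  refine ⟨C, B, fun b q r hbq V hV => ?_⟩
  obtain ⟨D, N₀, hD⟩ := h V (fun i t => fm (b i) (q i) (r i) t)
    (fun i => (fm_inj (hbq i).1 (hbq i).2).injOn)
    (fun i t ht => ⟨by
      have h1 := (hbq i).1
      have h2 := (hbq i).2
      show 0 < (b i : ℤ) ^ t * q i
      positivity, fm_coprime (hV i t ht)⟩)
    (fun i p hp hpB => by
      by_cases hpq : (p : ℤ) ∣ q i
      · refine ⟨0, fun t ht hd => ?_⟩
        have h1 := fm_coprime (hV i t ht)
        have h2 : (p : ℤ) ∣ (fm (b i) (q i) (r i) t).2 := by simpa using hd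
        have h3 : (p : ℤ) ∣ (fm (b i) (q i) (r i) t).1 := hpq.mul_left _
        have h4 := h1.isUnit_of_dvd' h3 h2
        exact (Nat.prime_iff_prime_int.1 hp).not_isUnit h4
      · have hcop : IsCoprime (q i : ℤ) (p : ℤ) := by
          rw [isCoprime_comm]
          exact (Prime.coprime_iff_not_dvd (Nat.prime_iff_prime_int.1 hp)).2 hpq
        obtain ⟨u, v, huv⟩ := hcop
        refine ⟨-(u * r i), fun t ht hd => ?_⟩
        have e1 : (fm (b i) (q i) (r i) t).1 * -(u * r i) + (fm (b i) (q i) (r i) t).2 =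
            (b i : ℤ) ^ t * r i * (1 - u * q i) + 1 := by
          simp only [fm]
          ring
        have e2 : (1 : ℤ) - u * q i = v * p := by linear_combination -huv
        rw [e1, e2] at hd
        have e3 : (p : ℤ) ∣ (b i : ℤ) ^ t * r i * (v * p) := ⟨(b i : ℤ) ^ t * r i * v, by ring⟩
        have h2 : (p : ℤ) ∣ 1 := (Int.dvd_add_right e3).1 hd
        exact (Nat.prime_iff_prime_int.1 hp).not_isUnit (isUnit_of_dvd_one h2))
  refine ⟨∑ i, (r i + q i * D), N₀ + 1, fun N hN => ?_⟩
  obtain ⟨e, he1, he2, he3, he4, he5⟩ := hD N (fun i => (Nat.le_succ _).trans (hN i))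
  rw [m_eq]
  refine ⟨e, he1, he2, he3, he4, fun j l hne i => (he5 i j l hne).trans ?_⟩
  rw [Nat.cast_le]
  exact cntI_le (hbq i).2 ((Nat.le_add_left 1 N₀).trans (hN i))
    (Finset.single_le_sum (f := fun i => r i + q i * D) (fun _ _ => Nat.zero_le _) (mem_univ i)) _

end Pool.Agent.Results.MP_9f2731_nt.CirclesAtScales
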