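import Mathlib
import Pool.Agent.Run7.h189.CO.GapVec

/-!
# The vectors of consecutive gaps in Cunningham sequences: a positive proportion of all vectors, and a basis

Let `S x = a x + b` with integers `a ≥ 2` and `b` prime to `a` (`a = 2`, `b = -1`: Cunningham sequences of the second
kind; `b = 1`: of the first kind). For a prime `p` let `0 = t_0 < t_1 < t_2 < …` be the times `t` for which `S^t(p)` is
prime. A vector `g = (g_1, …, g_k)` of positive integers is an `R`-isolated gap vector if for infinitely many primes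
`p` the first `k` gaps `t_i - t_{i-1}` are `g_1, …, g_k`, the `R` values after the time `t_k` are composite, and `p` is
not one of the first `R` iterates of a prime. The question, for `b = -1` and `R = 0`, is about `g = (1, …, 1)`.

For every `k` there are `m`, `C` and `s` which depend on `k` only, such that for all maps `S`, all `R` and all
multiples `N > R` of `m!`:
* at least the proportion `1 / C` of all the vectors in `{N, 2 N, …, H N}^k`, for all `H ≥ m`, are `R`-isolated gap
  vectors;
* among any `s + 1` integer vectors there are two, `x` and `y`, such that `N (x - y)` is the difference of two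
  `R`-isolated gap vectors; so for every integer vector `w` there is `1 ≤ c ≤ s` such that `c N w` is the difference of
  two `R`-isolated gap vectors;
* every vector `N s! w`, `w ∈ ℤ^k`, is the difference of two sums of `s!` many `R`-isolated gap vectors.

Proof. For the forms `S^t(n)` at any `m` times divisible by `N` (coloured Maynard-Tao theorem and congruences, all of
them exact patterns, `Run7.h189.CO.Exact.col`) some `k + 1` successive times of primes occur; the number of the vectors
follows by a double counting over the `m`-tuples of gaps; translates of the set of gap vectors cannot be disjoint if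
there are many of them.
-/

set_option autoImplicit false

namespace Pool.Agent.Results.MP_9f2731_nt.GapVectorsOfOrbits

open Finset

/-- the `j`-th iterate of `x ↦ a x + b` at `x` -/
def S (a b : ℤ) (j : ℕ) (x : ℤ) : ℤ := (fun y : ℤ => a * y + b)^[j] x

/-- the time `t_r = g_1 + ⋯ + g_r` -/
def time {k : ℕ} (g : Fin k → ℕ) (r : ℕ) : ℕ := ∑ i : Fin k, if (i : ℕ) < r then g i else 0

/-- `g` is an `R`-isolated gap vector of `S x = a x + b`: there are infinitely many primes `p` such that for
`0 ≤ j ≤ t_k + R` the number `S^j(p)` is prime if and only if `j` is one of the times `t_0 = 0, t_1, …, t_k`, and `p` is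
none of the first `R` iterates of a prime `q`. -/
def IsGapVector (a b : ℤ) (R : ℕ) {k : ℕ} (g : Fin k → ℕ) : Prop :=
  (∀ i, 1 ≤ g i) ∧
  {p : ℕ | p.Prime ∧ (∀ j ≤ time g k + R, (S a b j p).toNat.Prime ↔ ∃ r ≤ k, j = time g r) ∧
    ∀ q j : ℕ, q.Prime → 0 < j → j ≤ R → S a b j q ≠ p}.Infinite

theorem It_eq (a b : ℤ) (j : ℕ) (x : ℤ) : Run7.h189.CO.It a b j x = S a b j x := by
  induction j with
  | zero => exact Run7.h189.CO.It_zero a b x
  | succ j ih =>
    rw [Run7.h189.CO.It_succ, ih]
    unfold S
    rw [Function.iterate_succ_apply']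

theorem of_gapVec {a b : ℤ} {R k : ℕ} {g : Fin k → ℕ} (hg : ∀ i, 1 ≤ g i)
    (h : Run7.h189.CO.GapVec a b R g) : IsGapVector a b R g := by
  refine ⟨hg, ?_⟩
  unfold Run7.h189.CO.GapVec at h
  rw [← Run7.h189.CO.tm_full] at h
  simp only [It_eq] at h
  exact h

open Classical in
/-- **Gap vectors of the orbits of affine maps**, see `IsGapVector`. (1) A positive proportion, depending on the length
`k` only, of all the vectors of multiples of `N` are gap vectors. (2) Among any `s + 1` integer vectors there are two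
whose difference, multiplied by `N`, is a difference of two gap vectors; every integer vector has a multiple
`c N w`, `1 ≤ c ≤ s`, which is a difference of two gap vectors; every vector `N s! w` is a signed sum of `2 s!` gap
vectors. -/
theorem result (k : ℕ) :
    (∃ m C : ℕ, ∀ a b : ℤ, 2 ≤ a → IsCoprime a b → ∀ R N : ℕ, m.factorial ∣ N → R < N → ∀ H : ℕ, m ≤ H →
      H ^ k ≤ C * ((Fintype.piFinset (fun _ : Fin k => Icc 1 H)).filter
        (fun g => IsGapVector a b R (fun i => N * g i))).card) ∧
    (∃ m s : ℕ, ∀ a b : ℤ, 2 ≤ a → IsCoprime a b → ∀ R N : ℕ, m.factorial ∣ N → R < N →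
      ∀ x : Fin (s + 1) → Fin k → ℤ, ∃ i j : Fin (s + 1), i < j ∧ ∃ g g' : Fin k → ℕ,
        IsGapVector a b R g ∧ IsGapVector a b R g' ∧ ∀ l, (N : ℤ) * (x j l - x i l) = (g l : ℤ) - g' l) ∧
    (∃ m s : ℕ, ∀ a b : ℤ, 2 ≤ a → IsCoprime a b → ∀ R N : ℕ, m.factorial ∣ N → R < N → ∀ w : Fin k → ℤ,
      (∃ c : ℕ, 1 ≤ c ∧ c ≤ s ∧ ∃ g g' : Fin k → ℕ, IsGapVector a b R g ∧ IsGapVector a b R g' ∧
        ∀ l, (c : ℤ) * N * w l = (g l : ℤ) - g' l) ∧
      ∃ g g' : Fin s.factorial → Fin k → ℕ, (∀ i, IsGapVector a b R (g i)) ∧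
        (∀ i, IsGapVector a b R (g' i)) ∧
        ∀ l, (N : ℤ) * s.factorial * w l = ∑ i, (g i l : ℤ) - ∑ i, (g' i l : ℤ)) := by
  refine ⟨?_, ?_, ?_⟩
  · obtain ⟨m, C, -, -, h⟩ := Run7.h189.CO.density k
    refine ⟨m, C, fun a b ha hab R N hN hRN H hH => (h a b ha hab R N hN hRN H hH).trans ?_⟩
    refine Nat.mul_le_mul_left _ (card_le_card fun g hg => ?_)
    obtain ⟨h1, h2⟩ := mem_filter.1 hg
    refine mem_filter.2 ⟨h1, of_gapVec (fun i => ?_) h2⟩
    have := (mem_Icc.1 (Fintype.mem_piFinset.1 h1 i)).1
    exact Nat.mul_pos (by omega) this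
  · obtain ⟨m, s, -, -, h⟩ := Run7.h189.CO.diffs k
    refine ⟨m, s, fun a b ha hab R N hN hRN x => ?_⟩
    obtain ⟨i, j, hij, g, g', h1, h2, h3, h4⟩ := h a b ha hab R N hN hRN x
    refine ⟨i, j, hij, fun l => N * g l, fun l => N * g' l,
      of_gapVec (fun l => Nat.mul_pos (by omega) (h1 l).1) h2,
      of_gapVec (fun l => Nat.mul_pos (by omega) (h1 l).2) h3, fun l => ?_⟩
    rw [h4 l]
    push_cast
    ring
  · obtain ⟨m, s, -, -, h⟩ := Run7.h189.CO.multiples k
    refine ⟨m, s, fun a b ha hab R N hN hRN w => ⟨?_, ?_⟩⟩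
    · obtain ⟨c, hc1, hc2, g, g', h1, h2, h3, h4⟩ := (h a b ha hab R N hN hRN).1 w
      refine ⟨c, hc1, hc2, fun l => N * g l, fun l => N * g' l,
        of_gapVec (fun l => Nat.mul_pos (by omega) (h1 l).1) h2,
        of_gapVec (fun l => Nat.mul_pos (by omega) (h1 l).2) h3, fun l => ?_⟩
      have := h4 l
      push_cast
      linear_combination (N : ℤ) * this
    · obtain ⟨g, g', h1, h2, h3, h4⟩ := (h a b ha hab R N hN hRN).2 w
      exact ⟨fun i l => N * g i l, fun i l => N * g' i l,
        fun i => of_gapVec (fun l => Nat.mul_pos (by omega) (h1 i l).1) (h2 i),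
        fun i => of_gapVec (fun l => Nat.mul_pos (by omega) (h1 i l).2) (h3 i), h4⟩

end Pool.Agent.Results.MP_9f2731_nt.GapVectorsOfOrbits
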