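import Mathlib
import Pool.Agent.Run7.h402.PD.D12

/-!
# Long chains of the second kind `q, g_0 q - c_0, g_1 (g_0 q - c_0) - c_1, …` for almost all vectors of steps in short boxes

A Cunningham chain of the second kind is the case of the multipliers `g_i = 2` and the steps `c_i = 1`. For all `A`, `B`, `T`
there is `C` such that for all large `X`, all `k ≤ B log log X`, all nonzero multipliers `g_0, …, g_(k-1)` with partial
products at most `(log X) ^ T` (all `g_i = 2` is allowed if `T ≥ B`) and all boxes of steps inside of `(-X, X] ^ k` with sides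
`H_i ≥ X ^ (1/3) (log X) ^ C` (for instance around the point `(1, …, 1)`): for all but at most
`H_0 ⋯ H_(k-1) / (log X) ^ A` of the vectors `c` of steps in the box, the number of the chains of `k + 1` primes with the steps
`c` and the first prime in an interval `(y₁, y₂]`, `y₂ ≤ X`, is given by the formula of Hardy and Littlewood, for all these
intervals; and if the multipliers are at least `2`, the steps are at most `X / 2` (of any sign) and there is no local
obstruction, then there are such chains whose first prime lies in `(X / 2, X]`.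

The analytic part is the theorem `almost_chains` of helper402 (`Pool/Agent/Run7/h402/PD/D12.lean`).
-/

set_option autoImplicit false

open Finset
open Filter (Tendsto atTop)
open scoped Topology Classical

namespace Pool.Agent.Results.MP_9f2731_nt.LongChainsSecondKind

/-- the members `q_0 = q`, `q_(i+1) = g_i q_i - c_i` of the chain of the second kind with the multipliers `g` and the steps `c` -/
def chain {k : ℕ} (g c : Fin k → ℤ) (q : ℤ) : ℕ → ℤ
  | 0 => q
  | i + 1 => if h : i < k then g ⟨i, h⟩ * chain g c q i - c ⟨i, h⟩ else 0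

/-- the product `g_0 ⋯ g_(i-1)` -/
def slope {k : ℕ} (g : Fin k → ℤ) : ℕ → ℤ
  | 0 => 1
  | i + 1 => if h : i < k then g ⟨i, h⟩ * slope g i else 0

/-- the number of the classes `q` modulo `p` for which `p` divides a member `q_0, …, q_k` -/
noncomputable def nu {k : ℕ} (g c : Fin k → ℤ) (p : ℕ) : ℕ := ((range p).filter (fun q : ℕ => ∃ i ≤ k, (p : ℤ) ∣ chain g c q i)).card

/-- the partial products of the singular series of the chain -/
noncomputable def partS {k : ℕ} (g c : Fin k → ℤ) (z : ℕ) : ℝ :=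
  ∏ p ∈ (Icc 1 z).filter Nat.Prime, (1 - (nu g c p : ℝ) / p) / (1 - 1 / (p : ℝ)) ^ (k + 1)

/-- the singular series -/
noncomputable def S {k : ℕ} (g c : Fin k → ℤ) : ℝ := Filter.limUnder atTop (partS g c)

/-- there is no local obstruction -/
def Admissible {k : ℕ} (g c : Fin k → ℤ) : Prop := ∀ p : ℕ, p.Prime → ∃ q : ℕ, ∀ i ≤ k, ¬ (p : ℤ) ∣ chain g c q i

/-- the number of `q` with `y₁ < q ≤ y₂` such that `q_0, …, q_k` are (positive) primes -/
noncomputable def count {k : ℕ} (g c : Fin k → ℤ) (y₁ y₂ : ℕ) : ℕ :=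
  ((Ioc y₁ y₂).filter (fun q : ℕ => ∀ i ≤ k, (chain g c q i).toNat.Prime)).card

/-- the sum of `1 / (log q_0 ⋯ log q_k)` over the `q` with `y₁ < q ≤ y₂` such that `q_0, …, q_k ≥ 2` -/
noncomputable def li {k : ℕ} (g c : Fin k → ℤ) (y₁ y₂ : ℕ) : ℝ :=
  ∑ q ∈ (Ioc y₁ y₂).filter (fun q : ℕ => ∀ i ≤ k, 2 ≤ chain g c q i), ∏ i ∈ range (k + 1), (Real.log ((chain g c q i : ℤ) : ℝ))⁻¹

/-- the formula for the vector `c` of steps -/
def Formula {k : ℕ} (g c : Fin k → ℤ) (X A : ℕ) : Prop :=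
  Tendsto (partS g c) atTop (𝓝 (S g c)) ∧
  (Admissible g c → 0 < S g c ∧ (∀ y₁ y₂ : ℕ, y₁ ≤ y₂ → y₂ ≤ X →
    |(count g c y₁ y₂ : ℝ) - S g c * li g c y₁ y₂| ≤ S g c * (X / Real.log X ^ (A + (k + 1)))) ∧
    ((∀ i, 2 ≤ g i) → (∀ i, 2 * c i ≤ X) → ∃ q : ℕ, X / 2 < q ∧ q ≤ X ∧ ∀ i ≤ k, (chain g c q i).toNat.Prime))

open Run7.h402.PD (FineD BadD Az nz lS lf nf cD lD nz_le_p Sd_tendsto Az_mod almost_chains Bch slp chain_eq cst_le slp_ne)

theorem chain_same {k : ℕ} (g c : Fin k → ℤ) (q : ℤ) (i : ℕ) : chain g c q i = Run7.h402.PD.chain g (fun i => -c i) q i := by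
  induction i with
  | zero => rfl
  | succ i ih => rw [chain, Run7.h402.PD.chain, ih]; simp only [sub_eq_add_neg]

theorem slope_same {k : ℕ} (g : Fin k → ℤ) (i : ℕ) : slope g i = slp g i := by
  induction i with
  | zero => rfl
  | succ i ih => rw [slope, slp, ih]

theorem val_eq {k : ℕ} (g c : Fin k → ℤ) (q : ℤ) (i : Fin (k + 1)) : slp g i * q + Run7.h402.PD.chain g (fun i => -c i) 0 i = chain g c q i := by
  rw [chain_same, chain_eq g (fun i => -c i) q i (Nat.lt_succ_iff.1 i.isLt)]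

theorem all_iff {k : ℕ} (P : ℕ → Prop) : (∀ i : Fin (k + 1), P i) ↔ ∀ i ≤ k, P i :=
  ⟨fun h i hi => h ⟨i, Nat.lt_succ_iff.2 hi⟩, fun h i => h i (Nat.lt_succ_iff.1 i.isLt)⟩

theorem Az_iff {k : ℕ} (g c : Fin k → ℤ) (p q : ℕ) :
    Az (fun i : Fin (k + 1) => slp g i) (fun i : Fin (k + 1) => Run7.h402.PD.chain g (fun i => -c i) 0 i) p q ↔ ∃ i ≤ k, (p : ℤ) ∣ chain g c q i := by
  unfold Az
  constructor
  · rintro ⟨i, hi⟩
    rw [val_eq] at hi
    exact ⟨i, Nat.lt_succ_iff.1 i.isLt, hi⟩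
  · rintro ⟨i, hi, hd⟩
    refine ⟨⟨i, Nat.lt_succ_iff.2 hi⟩, ?_⟩
    rw [val_eq g c q ⟨i, Nat.lt_succ_iff.2 hi⟩]
    exact hd

theorem nu_eq {k : ℕ} (g c : Fin k → ℤ) (p : ℕ) :
    nz (fun i : Fin (k + 1) => slp g i) (fun i : Fin (k + 1) => Run7.h402.PD.chain g (fun i => -c i) 0 i) p = nu g c p := by
  unfold nz nu
  congr 1
  ext q
  rw [mem_filter, mem_filter, Az_iff]

theorem part_eq {k : ℕ} (g c : Fin k → ℤ) :
    lS (k + 1) (nz (fun i : Fin (k + 1) => slp g i) (fun i : Fin (k + 1) => Run7.h402.PD.chain g (fun i => -c i) 0 i)) = partS g c := by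
  funext z
  unfold lS lf partS
  have h : Pool.Agent.H373R2.T7.pz z = (Icc 1 z).filter Nat.Prime := by
    ext p
    rw [Pool.Agent.H373R2.T7.mem_pz, mem_filter, mem_Icc]
    constructor
    · rintro ⟨h1, h2⟩
      exact ⟨⟨h2.one_lt.le, h1⟩, h2⟩
    · rintro ⟨⟨_, h1⟩, h2⟩
      exact ⟨h1, h2⟩
  rw [h]
  apply prod_congr rfl
  intro p _
  rw [nu_eq]

theorem adm_of {k : ℕ} (g c : Fin k → ℤ) (h : Admissible g c) (p : ℕ) (hp : p.Prime) :
    nz (fun i : Fin (k + 1) => slp g i) (fun i : Fin (k + 1) => Run7.h402.PD.chain g (fun i => -c i) 0 i) p < p := by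
  obtain ⟨n, hn⟩ := h p hp
  unfold nz
  have h1 : (range p).filter (fun n => Az (fun i : Fin (k + 1) => slp g i) (fun i : Fin (k + 1) => Run7.h402.PD.chain g (fun i => -c i) 0 i) p n) ⊆ (range p).erase (n % p) := by
    intro m hm
    rw [mem_filter] at hm
    rw [mem_erase]
    refine ⟨?_, hm.1⟩
    rintro rfl
    obtain ⟨i, hi, hd⟩ := (Az_iff g c p n).1 ((Az_mod _ _ p n).1 hm.2)
    exact hn i hi hd
  have h2 := card_le_card h1
  rw [card_erase_of_mem (mem_range.2 (Nat.mod_lt _ hp.pos)), card_range] at h2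
  have := hp.pos
  omega

theorem count_eq {k : ℕ} (g c : Fin k → ℤ) (y₁ y₂ : ℕ) :
    cD (fun i : Fin (k + 1) => slp g i) (fun i : Fin (k + 1) => Run7.h402.PD.chain g (fun i => -c i) 0 i) y₁ y₂ = count g c y₁ y₂ := by
  unfold cD count nf
  congr 1
  ext q
  rw [mem_filter, mem_filter]
  have e : (∀ i : Fin (k + 1), (slp g i * (q : ℤ) + Run7.h402.PD.chain g (fun i => -c i) 0 i).toNat.Prime) ↔ ∀ i ≤ k, (chain g c q i).toNat.Prime := by
    rw [← all_iff (fun i => (chain g c q i).toNat.Prime)]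
    apply forall_congr'
    intro i
    rw [val_eq]
  rw [e]

theorem li_eq {k : ℕ} (g c : Fin k → ℤ) (y₁ y₂ : ℕ) :
    lD (fun i : Fin (k + 1) => slp g i) (fun i : Fin (k + 1) => Run7.h402.PD.chain g (fun i => -c i) 0 i) y₁ y₂ = li g c y₁ y₂ := by
  unfold lD li
  have e0 : (Ioc y₁ y₂).filter (fun q : ℕ => ∀ i : Fin (k + 1), 2 ≤ slp g i * (q : ℤ) + Run7.h402.PD.chain g (fun i => -c i) 0 i) =
      (Ioc y₁ y₂).filter (fun q : ℕ => ∀ i ≤ k, 2 ≤ chain g c q i) := by
    ext q
    rw [mem_filter, mem_filter]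
    have e : (∀ i : Fin (k + 1), 2 ≤ slp g i * (q : ℤ) + Run7.h402.PD.chain g (fun i => -c i) 0 i) ↔ ∀ i ≤ k, 2 ≤ chain g c q i := by
      rw [← all_iff (fun i => 2 ≤ chain g c q i)]
      apply forall_congr'
      intro i
      rw [val_eq]
    rw [e]
  rw [e0]
  apply sum_congr rfl
  intro q _
  rw [← Fin.prod_univ_eq_prod_range (fun i => (Real.log ((chain g c q i : ℤ) : ℝ))⁻¹) (k + 1)]
  apply prod_congr rfl
  intro i _
  rw [val_eq]

/-- existence of a chain from the formula -/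
theorem exists_of {k : ℕ} (g c : Fin k → ℤ) (hg : ∀ i, 2 ≤ g i) (X : ℕ) (hc : ∀ i, 2 * c i ≤ X) (L : ℝ) (hL : Real.exp L = X) (hL1 : 1000 ≤ L) (T A' : ℕ)
    (hT : 2 * L ^ (T + 1) ≤ Real.exp L) (hgT : ∀ i ≤ k, |(slp g i : ℝ)| ≤ L ^ T) (hkL : (k : ℝ) ≤ L) (hcX : ∀ i, |c i| ≤ (X : ℤ))
    (h2 : (2 : ℝ) ^ (k + 1) * 8 ≤ L ^ A') (s : ℝ) (hs : 0 < s)
    (h : |(count g c (X / 2) X : ℝ) - s * li g c (X / 2) X| ≤ s * (X / L ^ (A' + (k + 1)))) :
    ∃ q : ℕ, X / 2 < q ∧ q ≤ X ∧ ∀ i ≤ k, (chain g c q i).toNat.Prime := by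
  have hL0 : 0 < L := by linarith
  have hX0 : (0 : ℝ) < X := by rw [← hL]; exact Real.exp_pos _
  have hXL : (1000 : ℝ) ≤ X := by
    have := Real.add_one_le_exp L
    rw [hL] at this
    linarith
  have hXn : 1000 ≤ X := by exact_mod_cast hXL
  have hg0 : ∀ i, g i ≠ 0 := fun i => by have := hg i; omega
  have hge : ∀ (q : ℕ), X / 2 < q → ∀ (i : ℕ), i ≤ k → (q : ℤ) ≤ chain g c q i := by
    intro q hq i hi
    induction i with
    | zero => simp [chain]
    | succ i ih =>
      have h1 : i < k := hi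
      rw [chain, dif_pos h1]
      have h3 := ih h1.le
      have h4 := hg ⟨i, h1⟩
      have h5 := hc ⟨i, h1⟩
      have h6 : (0 : ℤ) ≤ q := by positivity
      have h7 : (X : ℤ) < 2 * q := by omega
      nlinarith
  have hle : ∀ (q : ℕ), q ≤ X → ∀ i ≤ k, ((chain g c q i : ℤ) : ℝ) ≤ X * X := by
    intro q hq i hi
    rw [chain_same, chain_eq g (fun i => -c i) q i hi]
    have h3 := cst_le g (fun i => -c i) hg0 X (fun i => by rw [abs_neg]; exact hcX i) i hi
    have h4 := hgT i hi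
    have h5 : |((Run7.h402.PD.chain g (fun i => -c i) 0 i : ℤ) : ℝ)| ≤ |(slp g i : ℝ)| * ((i : ℝ) * X) := by
      rw [← Int.cast_abs, ← Int.cast_abs]
      exact_mod_cast h3
    have h6 : (i : ℝ) ≤ L := le_trans (by exact_mod_cast hi) hkL
    have h7 : (q : ℝ) ≤ X := by exact_mod_cast hq
    have hLT : 0 < L ^ T := by positivity
    push_cast
    calc (slp g i : ℝ) * q + Run7.h402.PD.chain g (fun i => -c i) 0 i ≤ |(slp g i : ℝ)| * q + |((Run7.h402.PD.chain g (fun i => -c i) 0 i : ℤ) : ℝ)| := by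
          apply add_le_add
          · exact mul_le_mul_of_nonneg_right (le_abs_self _) (by positivity)
          · exact le_abs_self _
      _ ≤ L ^ T * X + L ^ T * (L * X) := by
          apply add_le_add
          · exact mul_le_mul h4 h7 (by positivity) hLT.le
          · refine h5.trans (mul_le_mul h4 ?_ (by positivity) hLT.le)
            exact mul_le_mul_of_nonneg_right h6 hX0.le
      _ = L ^ T * (1 + L) * X := by ring
      _ ≤ (2 * L ^ (T + 1)) * X := by
          apply mul_le_mul_of_nonneg_right _ hX0.le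
          rw [pow_succ]
          nlinarith
      _ ≤ X * X := by
          apply mul_le_mul_of_nonneg_right _ hX0.le
          rw [← hL]
          exact hT
  have hlow : ((X : ℝ) / 4) * (1 / (2 * L) ^ (k + 1)) ≤ li g c (X / 2) X := by
    unfold li
    have e0 : (Ioc (X / 2) X).filter (fun q : ℕ => ∀ i ≤ k, 2 ≤ chain g c q i) = Ioc (X / 2) X := by
      apply filter_true_of_mem
      intro q hq i hi
      rw [mem_Ioc] at hq
      have := hge q hq.1 i hi
      omega
    rw [e0]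
    have h3 : ∀ q ∈ Ioc (X / 2) X, 1 / (2 * L) ^ (k + 1) ≤ ∏ i ∈ range (k + 1), (Real.log ((chain g c q i : ℤ) : ℝ))⁻¹ := by
      intro q hq
      rw [mem_Ioc] at hq
      have e1 : 1 / (2 * L) ^ (k + 1) = ∏ _i ∈ range (k + 1), (2 * L)⁻¹ := by
        rw [prod_const, card_range, inv_pow, one_div]
      rw [e1]
      apply prod_le_prod
      · intro i _
        positivity
      · intro i hi
        rw [mem_range] at hi
        have h4 := hge q hq.1 i (by omega)
        have h5 : (2 : ℝ) ≤ ((chain g c q i : ℤ) : ℝ) := by exact_mod_cast (by omega : (2 : ℤ) ≤ chain g c q i)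
        have h6 := hle q hq.2 i (by omega)
        apply inv_anti₀ (Real.log_pos (by linarith))
        have h7 := Real.log_le_log (by linarith) h6
        rw [Real.log_mul hX0.ne' hX0.ne', ← hL, Real.log_exp] at h7
        linarith
    have h4 := card_nsmul_le_sum (Ioc (X / 2) X) _ _ h3
    rw [nsmul_eq_mul, Nat.card_Ioc] at h4
    refine le_trans ?_ h4
    apply mul_le_mul_of_nonneg_right _ (by positivity)
    have h5 : X ≤ 4 * (X - X / 2) := by omega
    have h6 : (X : ℝ) ≤ 4 * ((X - X / 2 : ℕ) : ℝ) := by exact_mod_cast h5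
    linarith
  have hpos : 0 < (count g c (X / 2) X : ℝ) := by
    have h3 := (abs_le.1 h).1
    have h4 : s * (X / L ^ (A' + (k + 1))) < s * li g c (X / 2) X := by
      apply mul_lt_mul_of_pos_left _ hs
      refine lt_of_lt_of_le ?_ hlow
      rw [pow_add, mul_pow]
      have h5 : 0 < L ^ (k + 1) := by positivity
      have h6 : (0 : ℝ) < 2 ^ (k + 1) := by positivity
      have e1 : (X : ℝ) / 4 * (1 / (2 ^ (k + 1) * L ^ (k + 1))) = X / (4 * (2 ^ (k + 1) * L ^ (k + 1))) := by field_simp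
      rw [e1]
      apply div_lt_div_of_pos_left hX0 (by positivity)
      calc 4 * (2 ^ (k + 1) * L ^ (k + 1)) < (2 ^ (k + 1) * 8) * L ^ (k + 1) := by nlinarith [mul_pos h6 h5]
        _ ≤ L ^ A' * L ^ (k + 1) := by gcongr
    linarith
  have h3 : 0 < count g c (X / 2) X := by exact_mod_cast hpos
  unfold count at h3
  rw [card_pos] at h3
  obtain ⟨q, hq⟩ := h3
  rw [mem_filter, mem_Ioc] at hq
  exact ⟨q, hq.1.1, hq.1.2, hq.2⟩

/-- **Long chains of the second kind with given multipliers for almost all vectors of steps in short boxes.** -/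
theorem result : ∀ A B T : ℕ, ∃ C X₀ : ℕ, ∀ X : ℕ, X₀ ≤ X → ∀ k : ℕ, 1 ≤ k → (k : ℝ) ≤ B * Real.log (Real.log X) →
    ∀ g : Fin k → ℤ, (∀ i, g i ≠ 0) → (∀ i ≤ k, |(slope g i : ℝ)| ≤ Real.log X ^ T) →
    ∀ (b : Fin k → ℤ) (H : Fin k → ℕ), (∀ i, (X : ℝ) ^ (1 / 3 : ℝ) * Real.log X ^ C ≤ H i) → (∀ i, -(X : ℤ) < b i ∧ b i + H i ≤ X) →
    (((Fintype.piFinset (fun i : Fin k => Ico (b i) (b i + H i))).filter (fun c => ¬ Formula g c X A)).card : ℝ) ≤
      (∏ i, (H i : ℝ)) / Real.log X ^ A := by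
  intro A B T
  obtain ⟨C, X0, h0⟩ := almost_chains B (A + B + 2) T
  obtain ⟨L2, hd2⟩ := Pool.Agent.N475.SP.dom 2 1 (T + 1) one_pos
  refine ⟨C, max X0 (max 3 ⌈Real.exp (max (max L2 1000) (Real.exp B))⌉₊), fun X hX k hk hkB g hg hgT b H hH hb => ?_⟩
  have hX3 : 3 ≤ X := le_trans (le_trans (le_max_left _ _) (le_max_right _ _)) hX
  have hX0 : (0 : ℝ) < X := by exact_mod_cast (by omega : 0 < X)
  have hXL : Real.exp (max (max L2 1000) (Real.exp B)) ≤ X := (Nat.le_ceil _).trans (by exact_mod_cast le_trans (le_trans (le_max_right _ _) (le_max_right _ _)) hX)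
  have hgT' : ∀ i ≤ k, |(slp g i : ℝ)| ≤ Real.log X ^ T := fun i hi => by
    have := hgT i hi
    rwa [slope_same] at this
  have h1 := h0 X (le_trans (le_max_left _ _) hX) k hk hkB g hg hgT' (fun i => 1 - (b i + H i)) H hH (fun i => by have := hb i; omega)
  set L : ℝ := Real.log X with hL
  have hLL : max (max L2 1000) (Real.exp B) ≤ L := by rwa [hL, Real.le_log_iff_exp_le hX0]
  have hL1 : 1000 ≤ L := ((le_max_right _ _).trans (le_max_left _ _)).trans hLL
  have hL2 : L2 ≤ L := ((le_max_left _ _).trans (le_max_left _ _)).trans hLL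
  have hL0 : 0 < L := by linarith
  have hXe : Real.exp L = X := by rw [hL, Real.exp_log hX0]
  have hBL : (B : ℝ) ≤ Real.log L := by
    rw [Real.le_log_iff_exp_le hL0]
    exact (le_max_right _ _).trans hLL
  have hℓ0 : 0 ≤ Real.log L := Real.log_nonneg (by linarith)
  have hkL : (k : ℝ) ≤ L := by
    have h7 := Real.quadratic_le_exp_of_nonneg (show 0 ≤ Real.log L / 2 by linarith)
    have h8 : Real.log L ≤ Real.exp (Real.log L / 2) := by nlinarith [sq_nonneg (Real.log L / 2 - 1)]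
    have h4 : Real.exp (Real.log L / 2) * Real.exp (Real.log L / 2) = L := by
      rw [← Real.exp_add, add_halves, Real.exp_log hL0]
    calc (k : ℝ) ≤ B * Real.log L := hkB
      _ ≤ Real.log L * Real.log L := by gcongr
      _ ≤ Real.exp (Real.log L / 2) * Real.exp (Real.log L / 2) := mul_le_mul h8 h8 hℓ0 (Real.exp_pos _).le
      _ = L := h4
  have h2k : (2 : ℝ) ^ (k + 1) * 8 ≤ L ^ (A + B + 2) := by
    have h3 : (2 : ℝ) ^ k ≤ L ^ B := by
      have h4 : (2 : ℝ) ^ k ≤ Real.exp k := by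
        rw [← Real.exp_one_pow]
        apply pow_le_pow_left₀ (by norm_num)
        have := Real.add_one_le_exp (1 : ℝ)
        linarith
      refine h4.trans ?_
      have h5 : L ^ B = Real.exp (B * Real.log L) := by rw [Real.exp_nat_mul, Real.exp_log hL0]
      rw [h5]
      exact Real.exp_le_exp.2 hkB
    have h4 : 1 ≤ L ^ A := one_le_pow₀ (by linarith)
    calc (2 : ℝ) ^ (k + 1) * 8 = 2 ^ k * 16 := by rw [pow_succ]; ring
      _ ≤ L ^ B * (L * L) := by
          apply mul_le_mul h3 _ (by norm_num) (by positivity)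
          nlinarith
      _ = 1 * (L ^ B * L ^ 2) := by ring
      _ ≤ L ^ A * (L ^ B * L ^ 2) := by gcongr
      _ = L ^ (A + B + 2) := by rw [pow_add, pow_add]; ring
  have hPH : 0 ≤ ∏ i, (H i : ℝ) := prod_nonneg fun i _ => Nat.cast_nonneg _
  have hmono : (∏ i, (H i : ℝ)) / L ^ (A + B + 2) ≤ (∏ i, (H i : ℝ)) / L ^ A := by
    apply div_le_div_of_nonneg_left hPH (by positivity)
    exact pow_le_pow_right₀ (by linarith) (by omega)
  refine le_trans ?_ (h1.trans hmono)
  have hsub : ∀ c ∈ (Fintype.piFinset (fun i : Fin k => Ico (b i) (b i + H i))).filter (fun c => ¬ Formula g c X A),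
      (fun i => -c i) ∈ (Fintype.piFinset (fun i : Fin k => Ico (1 - (b i + H i)) (1 - (b i + H i) + H i))).filter (fun c => Bch (A + B + 2) X g c) := by
    intro c hc
    rw [mem_filter] at hc ⊢
    refine ⟨?_, fun hF => hc.2 ?_⟩
    · rw [Fintype.mem_piFinset]
      intro i
      have h3 := mem_Ico.1 (Fintype.mem_piFinset.1 hc.1 i)
      rw [mem_Ico]
      omega
    obtain ⟨hind, hmain⟩ := hF
    have hlim : Tendsto (partS g c) atTop (𝓝 (S g c)) := by
      unfold S
      apply tendsto_nhds_limUnder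
      obtain ⟨s, hs⟩ := Sd_tendsto (fun i : Fin (k + 1) => slp g i) (fun i : Fin (k + 1) => Run7.h402.PD.chain g (fun i => -c i) 0 i)
        (fun i => slp_ne g hg i (Nat.lt_succ_iff.1 i.isLt)) hind
      rw [part_eq] at hs
      exact ⟨s, hs⟩
    refine ⟨hlim, fun hadm => ?_⟩
    obtain ⟨g1, g2⟩ := hmain (adm_of g c hadm) (S g c) (by rw [part_eq]; exact hlim)
    have g3 : ∀ y₁ y₂ : ℕ, y₁ ≤ y₂ → y₂ ≤ X → |(count g c y₁ y₂ : ℝ) - S g c * li g c y₁ y₂| ≤ S g c * (X / L ^ (A + B + 2 + (k + 1))) := by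
      intro y₁ y₂ h12 hy
      have h3 := (g2 y₁ y₂ h12 hy).2
      rw [count_eq, li_eq] at h3
      exact h3
    refine ⟨g1, fun y₁ y₂ h12 hy => ?_, fun hg1 hc0 => ?_⟩
    · refine (g3 y₁ y₂ h12 hy).trans ?_
      apply mul_le_mul_of_nonneg_left _ g1.le
      apply div_le_div_of_nonneg_left hX0.le (by positivity)
      exact pow_le_pow_right₀ (by linarith) (by omega)
    · refine exists_of g c hg1 X hc0 L hXe hL1 T (A + B + 2) (by
        have := hd2 L hL2
        rwa [one_mul] at this) hgT' hkL (fun i => ?_) h2k (S g c) g1 (g3 (X / 2) X (Nat.div_le_self _ _) le_rfl)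
      have h3 := mem_Ico.1 (Fintype.mem_piFinset.1 hc.1 i)
      have h4 := hb i
      rw [abs_le]
      constructor <;> omega
  have hinj : Set.InjOn (fun (c : Fin k → ℤ) (i : Fin k) => -c i)
      ((Fintype.piFinset (fun i : Fin k => Ico (b i) (b i + H i))).filter (fun c => ¬ Formula g c X A) : Finset (Fin k → ℤ)) := by
    intro c _ d _ h
    funext i
    have h3 := congrFun h i
    exact neg_injective h3
  exact_mod_cast card_le_card_of_injOn _ hsub hinj

end Pool.Agent.Results.MP_9f2731_nt.LongChainsSecondKind
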